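import Pool.Agent.Helper49.TP.StF

set_option autoImplicit false

namespace Pool.Agent.Helper81.TP

open Finset Pool.Agent.Helper49.TP Pool.Agent.Helper93.IA

theorem hFBR : StFBR := by
  intro n G Z hZ hG h1 h2
  obtain ⟨⟨x₀, y₀⟩, hxy⟩ := hZ
  have r1 : ∀ x, (univ.filter fun y => (x, y) ∈ Z).card = (univ.filter fun y => (x₀, y) ∈ Z).card := by
    intro x
    obtain ⟨g, hg, hgx⟩ := h1 x x₀
    refine Finset.card_equiv g.2 fun y => ?_
    rw [mem_filter, mem_filter, hG g hg x y, hgx]
    simp
  have r2 : ∀ y, (univ.filter fun x => (x, y) ∈ Z).card = (univ.filter fun x => (x, y₀) ∈ Z).card := by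
    intro y
    obtain ⟨g, hg, hgy⟩ := h2 y y₀
    refine Finset.card_equiv g.1 fun x => ?_
    rw [mem_filter, mem_filter, hG g hg x y, hgy]
    simp
  have c1 : Z.card = ∑ x : Fin n, (univ.filter fun y => (x, y) ∈ Z).card := by
    simp only [card_filter]
    rw [← Finset.sum_product', Finset.univ_product_univ, ← card_filter]
    congr 1
    ext p
    simp
  have c2 : Z.card = ∑ y : Fin n, (univ.filter fun x => (x, y) ∈ Z).card := by
    rw [c1]
    simp only [card_filter]
    rw [Finset.sum_comm]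
  simp only [r1, sum_const, card_univ, Fintype.card_fin, smul_eq_mul] at c1
  simp only [r2, sum_const, card_univ, Fintype.card_fin, smul_eq_mul] at c2
  have hn : 0 < n := x₀.pos
  have e : (univ.filter fun y => (x₀, y) ∈ Z).card = (univ.filter fun x => (x, y₀) ∈ Z).card :=
    Nat.eq_of_mul_eq_mul_left hn (c1.symm.trans c2)
  refine ⟨(univ.filter fun y => (x₀, y) ∈ Z).card, ?_, r1, fun y => (r2 y).trans e.symm⟩
  exact card_pos.2 ⟨y₀, by simpa using hxy⟩

end Pool.Agent.Helper81.TP
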